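import Pool.Agent.H494.Kac.Main2

/-!
# Kac's walk on the sphere exhibits cutoff, at time `n log n / (2 c*)`

`c* = sup_{p > 0} (1 - 2 E[B^p]) / p`, `B = cos² θ` with `θ` uniform (numerically `c* = 0.12848`, so
`1 / (2 c*) = 3.8917`). The walk (`law`, with the one-step kernel `stepLaw`), the notion of uniform
measure on the sphere (`IsUnif`), `mom p = E[B^p]` and `cstar` are defined in
`Pool.Agent.H494.Kac.Defs`.
-/

open MeasureTheory Filter Topology
open scoped ENNReal

namespace Pool.Agent.Results.MP_f31f09_pr.SphereCutoff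

open Pool.Agent.H494.Kac

/-- The uniform probability measure on the unit sphere of `ℝⁿ`: the law of the direction of a
standard Gaussian vector (the first part of `result` says that it is the only probability measure
carried by the unit sphere which is invariant under all linear isometries). -/
noncomputable def sph (n : ℕ) : Measure (E n) :=
  (ProbabilityTheory.stdGaussian (E n)).map (fun x => ‖x‖⁻¹ • x)

/-- `sup_x ‖P^t(x, ·) - π‖_TV ≤ ε`: after `t` steps Kac's walk on the unit sphere of `ℝⁿ` is within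
total variation distance `ε` of the uniform measure, from every starting point. -/
def Mixed (n : ℕ) (ε : ℝ) (t : ℕ) : Prop :=
  ∀ x : E n, ‖x‖ = 1 → ∀ S : Set (E n), MeasurableSet S →
    |(law n x t).real S - (sph n).real S| ≤ ε

/-- The mixing time `t_mix(ε) = min {t : sup_x ‖P^t(x, ·) - π‖_TV ≤ ε}`. -/
noncomputable def tmix (n : ℕ) (ε : ℝ) : ℕ := sInf {t | Mixed n ε t}

theorem lower (ε δ : ℝ) (hε : ε < 1) (hδ : 0 < δ) :
    ∀ᶠ n : ℕ in atTop, ∀ t : ℕ, Mixed n ε t →
      (1 - δ) * (n * Real.log n) / (2 * cstar) ≤ t := by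
  obtain ⟨_, _, h8⟩ := cstar_facts
  have hc : 0 < cstar := by linarith
  rcases le_or_gt 1 δ with h1 | h1
  · filter_upwards [eventually_ge_atTop 1] with n hn t _
    have hn' : (1 : ℝ) ≤ n := by exact_mod_cast hn
    have hl : 0 ≤ Real.log n := Real.log_nonneg hn'
    have : (1 - δ) * (n * Real.log n) / (2 * cstar) ≤ 0 := by
      apply div_nonpos_of_nonpos_of_nonneg _ (by positivity)
      exact mul_nonpos_of_nonpos_of_nonneg (by linarith) (by positivity)
    exact this.trans (by positivity)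
  · have hε' : 0 < (1 - ε) / 4 := by linarith
    filter_upwards [main ((1 - ε) / 4) δ hε' hδ h1, uniform_tail (δ / 4) ((1 - ε) / 4)
      (by positivity) hε', eventually_ge_atTop 2] with n hm hu hn t hmix
    by_contra hlt
    push Not at hlt
    set i₀ : Fin n := ⟨0, by omega⟩
    have hπ : IsUnif n (sph n) := unif_exists n (by omega)
    set x : E n := EuclideanSpace.single i₀ (1 : ℝ) with hx
    have hxn : ‖x‖ = 1 := by rw [hx]; simp
    set S : Set (E n) := {w | ∃ k, (n : ℝ) ^ (-1 + δ / 4) ≤ w k ^ 2} with hS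
    have hSm : MeasurableSet S := by
      rw [hS, Set.ofPred_exists]
      apply MeasurableSet.iUnion
      intro k
      exact measurableSet_le measurable_const (by fun_prop)
    haveI := hπ.prob
    haveI := law_prob n x (measurable_stepLaw n) (step_prob n hn) t
    have e1 := hm i₀ t hlt.le
    have e2 := hu (sph n) hπ
    have e3 : (law n x t).real Sᶜ ≤ (1 - ε) / 4 := ENNReal.toReal_le_of_le_ofReal hε'.le e1
    have e4 : (sph n).real S ≤ (1 - ε) / 4 := ENNReal.toReal_le_of_le_ofReal hε'.le e2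
    have e5 : (law n x t).real Sᶜ = 1 - (law n x t).real S := probReal_compl_eq_one_sub hSm
    have e6 := hmix x hxn S hSm
    have e7 := (abs_le.mp e6).2
    linarith

theorem upper (ε δ : ℝ) (hε : 0 < ε) (hδ : 0 < δ) (hδ1 : δ ≤ 1) :
    ∀ᶠ n : ℕ in atTop, Mixed n ε ⌈(1 + δ) * (n * Real.log n) / (2 * cstar)⌉₊ := by
  obtain ⟨_, _, h8⟩ := cstar_facts
  have hc : 0 < cstar := by linarith
  filter_upwards [mix_upper ε δ hε hδ hδ1, eventually_ge_atTop 1] with n hn hn1
  have hn' : (1 : ℝ) ≤ n := by exact_mod_cast hn1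
  have hl : 0 ≤ Real.log n := Real.log_nonneg hn'
  have h0 : 0 ≤ (1 + δ) * (n * Real.log n) / (2 * cstar) := by positivity
  intro x hx S hS
  exact hn _ (Nat.le_ceil _) (Nat.ceil_lt_add_one h0).le (sph n) (unif_exists n hn1) x hx S hS

theorem tmix_asym (ε : ℝ) (hε : 0 < ε) (hε1 : ε < 1) :
    Tendsto (fun n : ℕ => (tmix n ε : ℝ) / (n * Real.log n / (2 * cstar))) atTop (𝓝 1) := by
  obtain ⟨_, _, h8⟩ := cstar_facts
  have hc : 0 < cstar := by linarith
  rw [Metric.tendsto_atTop]
  intro η hη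
  set δ : ℝ := min (η / 3) 1 with hδ
  have hδ0 : 0 < δ := lt_min (by positivity) one_pos
  have hδη : δ ≤ η / 3 := min_le_left _ _
  have hlog : Tendsto (fun n : ℕ => (n : ℝ) * Real.log n / (2 * cstar)) atTop atTop := by
    apply Tendsto.atTop_div_const (by positivity)
    exact Tendsto.atTop_mul_atTop₀ tendsto_natCast_atTop_atTop
      (Real.tendsto_log_atTop.comp tendsto_natCast_atTop_atTop)
  have hev := hlog.eventually_gt_atTop (1 / δ)
  rw [← eventually_atTop]
  filter_upwards [lower ε δ hε1 hδ0, upper ε δ hε hδ0 (min_le_right _ _), hev] with n h1 h2 h3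
  set D : ℝ := (n : ℝ) * Real.log n / (2 * cstar) with hD
  have hD0 : 0 < D := lt_trans (by positivity) h3
  have hne : {t | Mixed n ε t}.Nonempty := ⟨_, h2⟩
  have hmem : Mixed n ε (tmix n ε) := Nat.sInf_mem hne
  have e1 : (1 - δ) * (n * Real.log n) / (2 * cstar) ≤ tmix n ε := h1 _ hmem
  have e2 : tmix n ε ≤ ⌈(1 + δ) * (n * Real.log n) / (2 * cstar)⌉₊ := Nat.sInf_le h2
  have e3 : (1 - δ) * (n * Real.log n) / (2 * cstar) = (1 - δ) * D := by rw [hD]; ring
  have e4 : (1 + δ) * (n * Real.log n) / (2 * cstar) = (1 + δ) * D := by rw [hD]; ring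
  rw [e3] at e1
  rw [e4] at e2
  have e5 : (tmix n ε : ℝ) ≤ (1 + δ) * D + 1 := by
    have h0 : 0 ≤ (1 + δ) * D := by positivity
    have := (Nat.ceil_lt_add_one h0).le
    have h6 : (tmix n ε : ℝ) ≤ (⌈(1 + δ) * D⌉₊ : ℝ) := by exact_mod_cast e2
    linarith
  have e6 : 1 < δ * D := by
    rw [div_lt_iff₀ hδ0] at h3
    linarith [mul_comm D δ]
  rw [Real.dist_eq, abs_lt]
  constructor
  · have : (1 - δ) ≤ (tmix n ε : ℝ) / D := by
      rw [le_div_iff₀ hD0]
      exact e1
    linarith
  · have : (tmix n ε : ℝ) / D ≤ 1 + 2 * δ := by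
      rw [div_le_iff₀ hD0]
      linarith
    linarith

/-- **Kac's walk on the sphere exhibits cutoff**, at `n log n / (2 c*)`. -/
theorem result :
    (∀ n : ℕ, 1 ≤ n → IsUnif n (sph n) ∧ ∀ π : Measure (E n), IsUnif n π → π = sph n) ∧
    (∀ ε : ℝ, 0 < ε → ∀ᶠ n : ℕ in atTop, ∃ t : ℕ, Mixed n ε t) ∧
    (∀ ε : ℝ, 0 < ε → ε < 1 →
      Tendsto (fun n : ℕ => (tmix n ε : ℝ) / (tmix n (1 / 4) : ℝ)) atTop (𝓝 1)) ∧
    (∀ ε : ℝ, 0 < ε → ε < 1 →
      Tendsto (fun n : ℕ => (tmix n ε : ℝ) / (n * Real.log n / (2 * cstar))) atTop (𝓝 1)) ∧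
    1 / 8 ≤ cstar ∧ cstar ≤ 0.1315 := by
  obtain ⟨_, h7, h8⟩ := cstar_facts
  have hc : 0 < cstar := by linarith
  refine ⟨fun n hn => ⟨unif_exists n hn, fun π hπ => unif_uniq n π _ hπ (unif_exists n hn)⟩,
    ?_, ?_, tmix_asym, h8, by norm_num; linarith⟩
  · intro ε hε
    filter_upwards [upper ε 1 hε one_pos le_rfl] with n hn
    exact ⟨_, hn⟩
  · intro ε hε hε1
    have h1 := tmix_asym ε hε hε1
    have h2 := tmix_asym (1 / 4) (by norm_num) (by norm_num)
    have h3 := h1.div h2 one_ne_zero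
    rw [div_one] at h3
    refine h3.congr' ?_
    filter_upwards [eventually_ge_atTop 3] with n hn
    have hn' : (3 : ℝ) ≤ n := by exact_mod_cast hn
    have hl : 0 < Real.log n := Real.log_pos (by linarith)
    have hD : (n : ℝ) * Real.log n / (2 * cstar) ≠ 0 := by positivity
    simp only [Pi.div_apply]
    rw [div_div_div_cancel_right₀ hD]

end Pool.Agent.Results.MP_f31f09_pr.SphereCutoff
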