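import Pool.Agent.H494.Kac.Main

/-!
# Kac's walk on the sphere: `t_mix(ε) ≥ (1 - o(1)) n log n / (2 c*) ≥ 3.8 n log n` for every `ε < 1`

`c* = sup_{p > 0} (1 - 2 E[B^p]) / p`, `B = cos² θ` with `θ` uniform (numerically `c* = 0.12848`, so
`1 / (2 c*) = 3.8917`). The known upper bound `4 n log n` is the value of the same expression at
`p = 2`. The walk (`law`), the uniform measure on the sphere (`IsUnif`), `mom p = E[B^p]` and
`cstar` are defined in `Pool.Agent.H494.Kac.Defs`.
-/

open MeasureTheory Filter Topology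
open scoped ENNReal

namespace Pool.Agent.Results.MP_f31f09_pr.SphereLowerBound

open Pool.Agent.H494.Kac

/-- After `t` steps Kac's walk on the unit sphere of `ℝⁿ` is within total variation distance `ε` of
the uniform measure, from every starting point. Thus `t_mix(ε)` is the least `t` with
`Mixed n ε t`. -/
def Mixed (n : ℕ) (ε : ℝ) (t : ℕ) : Prop :=
  ∀ π : Measure (E n), IsUnif n π → ∀ x : E n, ‖x‖ = 1 → ∀ S : Set (E n), MeasurableSet S →
    |(law n x t).real S - π.real S| ≤ ε

theorem lower (ε δ : ℝ) (hε : ε < 1) (hδ : 0 < δ) :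
    ∀ᶠ n : ℕ in atTop, ∀ t : ℕ, Mixed n ε t →
      (1 - δ) * (n * Real.log n) / (2 * cstar) ≤ t := by
  obtain ⟨_, _, h8⟩ := cstar_facts
  have hc : 0 < cstar := by linarith
  rcases le_or_gt 1 δ with h1 | h1
  · filter_upwards [eventually_ge_atTop 1] with n hn t _
    have hn' : (1 : ℝ) ≤ n := by exact_mod_cast hn
    have hl : 0 ≤ Real.log n := Real.log_nonneg hn'
    have : (1 - δ) * (n * Real.log n) / (2 * cstar) ≤ 0 := by
      apply div_nonpos_of_nonpos_of_nonneg _ (by positivity)
      exact mul_nonpos_of_nonpos_of_nonneg (by linarith) (by positivity)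
    exact this.trans (by positivity)
  · have hε' : 0 < (1 - ε) / 4 := by linarith
    filter_upwards [main ((1 - ε) / 4) δ hε' hδ h1, uniform_tail (δ / 4) ((1 - ε) / 4) (by positivity) hε',
      eventually_ge_atTop 2] with n hm hu hn t hmix
    by_contra hlt
    push Not at hlt
    set i₀ : Fin n := ⟨0, by omega⟩
    have hπ := unif_exists n (by omega)
    set π := (ProbabilityTheory.stdGaussian (E n)).map (fun x => ‖x‖⁻¹ • x) with hπdef
    set x : E n := EuclideanSpace.single i₀ (1 : ℝ) with hx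
    have hxn : ‖x‖ = 1 := by rw [hx]; simp
    set S : Set (E n) := {w | ∃ k, (n : ℝ) ^ (-1 + δ / 4) ≤ w k ^ 2} with hS
    have hSm : MeasurableSet S := by
      rw [hS, Set.setOf_exists]
      apply MeasurableSet.iUnion
      intro k
      exact measurableSet_le measurable_const (by fun_prop)
    haveI := hπ.prob
    haveI := law_prob n x (measurable_stepLaw n) (step_prob n hn) t
    have e1 := hm i₀ t hlt.le
    have e2 := hu π hπ
    have e3 : (law n x t).real Sᶜ ≤ (1 - ε) / 4 := ENNReal.toReal_le_of_le_ofReal hε'.le e1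
    have e4 : π.real S ≤ (1 - ε) / 4 := ENNReal.toReal_le_of_le_ofReal hε'.le e2
    have e5 : (law n x t).real Sᶜ = 1 - (law n x t).real S := probReal_compl_eq_one_sub hSm
    have e6 := hmix π hπ x hxn S hSm
    have e7 := (abs_le.mp e6).2
    linarith

/-- **Lower bound for the mixing time of Kac's walk on the sphere.** -/
theorem result :
    (1 / 8 ≤ cstar ∧ cstar ≤ 0.1315) ∧ (∀ n : ℕ, 1 ≤ n → ∃ π, IsUnif n π) ∧
    (∀ ε δ : ℝ, ε < 1 → 0 < δ → ∀ᶠ n : ℕ in atTop, ∀ t : ℕ, Mixed n ε t →
      (1 - δ) * (n * Real.log n) / (2 * cstar) ≤ t) ∧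
    (∀ ε : ℝ, ε < 1 → ∀ᶠ n : ℕ in atTop, ∀ t : ℕ, Mixed n ε t →
      3.8 * (n * Real.log n) ≤ t) := by
  obtain ⟨_, h7, h8⟩ := cstar_facts
  have hc : 0 < cstar := by linarith
  refine ⟨⟨h8, by norm_num; linarith⟩, fun n hn => ⟨_, unif_exists n hn⟩, lower, ?_⟩
  intro ε hε
  filter_upwards [lower ε 0.0005 hε (by norm_num), eventually_ge_atTop 1] with n hn hn1 t ht
  refine le_trans ?_ (hn t ht)
  have hn' : (1 : ℝ) ≤ n := by exact_mod_cast hn1
  have hl : 0 ≤ n * Real.log n := mul_nonneg (by linarith) (Real.log_nonneg hn')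
  rw [le_div_iff₀ (by positivity)]
  have : 3.8 * (n * Real.log n) * (2 * cstar) ≤ 3.8 * (n * Real.log n) * (2 * (1315 / 10000)) := by
    gcongr
  refine this.trans ?_
  nlinarith

end Pool.Agent.Results.MP_f31f09_pr.SphereLowerBound
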